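import Pool.Agent.N608.SG.PartC

/-!
# MP_6429ad_ag, Q1: no

Let `G` be the theta graph with three paths of four edges, with the labelling given in `Defs`.
The ideal of the third secant variety of the graph curve is not generated by products
of linear forms.

Proof.  The octic `f = x_4 x_5 x_6 x_7 x_8 x_9 (x_0 x_3 - x_1 x_2)` lies in the ideal: for a secant
3-space `U` and a linear functional on the coordinate ring of the intersection scheme, the values on
the products of two variables form a symmetric matrix with the zero pattern of the curve and with
rows in `U`; since `dim U = 4`, the vector of the values on the variables cannot be a point where
`f` does not vanish (`PartA`).  On the other hand the secant variety contains three linear spaces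
`T_1, T_2, T_3` such that a product of linear forms in the ideal has, for every `i`, a factor
vanishing on `T_i`; these factors are distinct and involve only `x_0, x_1, x_2, x_3`.  So all
products of linear forms in the ideal lie in the cube of the ideal `(x_0, x_1, x_2, x_3)`, and `f`
does not (`PartB`, `PartC`).
-/

set_option autoImplicit false

namespace Pool.Agent.Results.MP_6429ad_ag.ThetaGraph

open Pool.Agent.N608.SG

universe u

/-- The ideal of the third secant variety of the graph curve of the theta graph with three paths of
four edges is not generated by products of linear forms, over any infinite field. -/
theorem result (K : Type u) [Field K] [Infinite K] :
    Admissible TG ∧ Labelling TG tlab ∧ ¬ GenByProducts (secI (curve K TG tlab) 3) :=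
  ⟨admissible, labelling, not_gen⟩

end Pool.Agent.Results.MP_6429ad_ag.ThetaGraph
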